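import Pool.Agent.helper98.P2F.SpecC

/-!
# Project p2f (MP_70a088_an, P2), row CS0: the output of block F, completion version, for the class `P2.PC` and ball returns (helper38)
-/

set_option autoImplicit false

open Complex Metric Set Filter Topology MeasureTheory
open Pool.Agent.helper98.ILF
open WP (it)
open HY (UD T S hd UN RM)
open PM
open P2 (SS FL FLS CLS FR TL)
open PL (TP LO PZ GJ INR PG DK ht tr DI CY hG cv hv cm BS DQ)
open P2B (VE)

noncomputable section

namespace P2F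

theorem CS0 (hCPLA : CPLA_stmt) (hCDX : CDX_stmt) (hTIN : TIN_stmt) (hTDF : TDF_stmt)
    (hVCF : VCF_stmt) (hVSM : P2.VSM_stmt) : CS0_stmt := by
  intro f R hS μ x₀ hT C hC
  obtain ⟨c, hc, hcd⟩ := hCDX
  have hC0 : 0 ≤ C := by linarith
  have hQ : RQ f R (QB f R c) := by
    refine ⟨1 / 2, by norm_num, fun n y m e hy hD z hz => ?_⟩
    rw [mem_ball, dist_eq_norm] at hz
    exact hD z (hcd f R hS n y hy z hz)
  have hCLS := P2.PCC hTIN hTDF hVCF hVSM hS hT C hC0
  have hx₀ : ∀ k H, k ≤ H → P2.PC f R x₀ C k x₀ H := by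
    intro k H hkH
    refine ⟨hT.mem, hkH, ?_⟩
    rw [sub_self, norm_zero]
    exact mul_nonneg hC0 (P2.CRP hTDF hVCF hS hT.mem H).le
  obtain ⟨a, ha0, -, -, e, z, n, T', m, hP⟩ := hCPLA f R hS μ x₀ hT (P2.PC f R x₀ C) hCLS hx₀ (Ultrafilter.of atTop) (Ultrafilter.of_le _) (QB f R c) hQ 1 one_pos
  exact ⟨a, c, Ultrafilter.of atTop, e, z, n, T', m, ha0, hc, Ultrafilter.of_le _, hP⟩

end P2F
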